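import Mathlib

/-!
# The Lemke-Howson algorithm does not have polynomial smoothed complexity

We define the Lemke-Howson algorithm for a bimatrix game (complementary pivoting between adjacent
vertices of the two best-response polytopes, started at the artificial equilibrium `(0,0)` by
dropping an arbitrary initial label) and count its pivots.  We prove, without any assumption, that
neither under uniform nor under Gaussian perturbations the expected number of pivots is bounded by
a polynomial in the size of the game and `1/σ`, whatever rule is used to choose the initial label.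
-/

namespace Pool.Agent.H521R2.LH

open MeasureTheory ProbabilityTheory

section Definitions

variable {ι : Type} [Fintype ι]

/-- A positive constant with `M i j + shift M ≥ 1` for all `i j`. Adding a constant to all payoffs
does not change the equilibria; it makes the payoff matrices positive. -/
noncomputable def shift (M : ι → ι → ℝ) : ℝ := 1 + ∑ i, ∑ j, |M i j|

/-- The best-response polytope `P = {x ≥ 0 : (B + shift B)ᵀ x ≤ 1}` (mixed strategies of the row
player, unnormalised; `B` is the payoff matrix of the column player). -/
def polyP (B : ι → ι → ℝ) : Set (ι → ℝ) :=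
  {x | (∀ i, 0 ≤ x i) ∧ ∀ j, ∑ i, x i * (B i j + shift B) ≤ 1}

/-- The best-response polytope `Q = {y ≥ 0 : (A + shift A) y ≤ 1}` (mixed strategies of the column
player, unnormalised; `A` is the payoff matrix of the row player). -/
def polyQ (A : ι → ι → ℝ) : Set (ι → ℝ) :=
  {y | (∀ j, 0 ≤ y j) ∧ ∀ i, ∑ j, (A i j + shift A) * y j ≤ 1}

/-- Labels: `Sum.inl i` for the `i`-th row, `Sum.inr j` for the `j`-th column. -/
abbrev Label (ι : Type) := ι ⊕ ι

/-- The labels of a point `x` of `P`: the rows not used by `x`, and the columns that are best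
responses to `x` (tight inequalities). -/
def labP (B : ι → ι → ℝ) (x : ι → ℝ) : Set (Label ι) :=
  {m | Sum.elim (fun i => x i = 0) (fun j => ∑ i, x i * (B i j + shift B) = 1) m}

/-- The labels of a point `y` of `Q`: the rows that are best responses to `y` (tight
inequalities), and the columns not used by `y`. -/
def labQ (A : ι → ι → ℝ) (y : ι → ℝ) : Set (Label ι) :=
  {m | Sum.elim (fun i => ∑ j, (A i j + shift A) * y j = 1) (fun j => y j = 0) m}

/-- One pivot in the polytope `S` whose points `v` have the labels `lab v`: from the vertex `v`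
the label `e` is dropped, i.e. we move to a vertex `v' ≠ v` of `S` that has all labels of `v` other
than `e`. -/
def Pivot (S : Set (ι → ℝ)) (lab : (ι → ℝ) → Set (Label ι)) (v : ι → ℝ) (e : Label ι)
    (v' : ι → ℝ) : Prop :=
  v' ∈ S.extremePoints ℝ ∧ v' ≠ v ∧ lab v \ {e} ⊆ lab v'

/-- `Reach A B ℓ t x y s e`: the Lemke-Howson algorithm on the game `(A, B)` with missing label
`ℓ` can be, after `t` pivots, at the pair `(x, y)`; the next pivot drops the label `e`, and it takes
place in `P` (i.e. it changes `x`) if `s = true` and in `Q` if `s = false`.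
The start is `(0, 0)`, where `ℓ` is dropped from the point having it. Each pivot picks up a
new label `e'`, which is dropped from the other point in the next pivot. -/
inductive Reach (A B : ι → ι → ℝ) (ℓ : Label ι) :
    ℕ → (ι → ℝ) → (ι → ℝ) → Bool → Label ι → Prop
  | init : Reach A B ℓ 0 0 0 ℓ.isLeft ℓ
  | moveX {t : ℕ} {x y : ι → ℝ} {e : Label ι} {x' : ι → ℝ} {e' : Label ι} :
      Reach A B ℓ t x y true e → Pivot (polyP B) (labP B) x e x' →
      e' ∈ labP B x' → e' ∉ labP B x → Reach A B ℓ (t + 1) x' y false e'
  | moveY {t : ℕ} {x y : ι → ℝ} {e : Label ι} {y' : ι → ℝ} {e' : Label ι} :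
      Reach A B ℓ t x y false e → Pivot (polyQ A) (labQ A) y e y' →
      e' ∈ labQ A y' → e' ∉ labQ A y → Reach A B ℓ (t + 1) x y' true e'

/-- `(x, y)` is completely labelled, and it is not the artificial equilibrium: then `x` and `y`,
normalised, form a Nash equilibrium. -/
def IsEquilibriumPair (A B : ι → ι → ℝ) (x y : ι → ℝ) : Prop :=
  x ∈ polyP B ∧ y ∈ polyQ A ∧ x ≠ 0 ∧ y ≠ 0 ∧ ∀ m, m ∈ labP B x ∨ m ∈ labQ A y

/-- The number of pivots of the Lemke-Howson algorithm on the game `(A, B)` with missing label `ℓ`:
the least `t` such that the algorithm can be at an equilibrium pair after `t` pivots (`⊤` if there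
is none). For a nondegenerate game every pivot is uniquely determined, so this is the number
of pivots of the algorithm; for degenerate games (a null set) the most favourable way
of breaking ties is counted. -/
noncomputable def pivots (A B : ι → ι → ℝ) (ℓ : Label ι) : ℕ∞ :=
  ⨅ (t : ℕ) (_ : ∃ x y s e, Reach A B ℓ t x y s e ∧ IsEquilibriumPair A B x y), (t : ℕ∞)

/-- The law of an `n × n` matrix with independent entries of law `μ`. -/
noncomputable def noise (n : ℕ) (μ : Measure ℝ) : Measure (Fin n → Fin n → ℝ) :=
  Measure.pi fun _ => Measure.pi fun _ => μ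

/-- A rule choosing the initial label from the game (of size `n + 1`) to be solved. -/
def LabelRule : Type :=
  ∀ n : ℕ, (Fin (n + 1) → Fin (n + 1) → ℝ) → (Fin (n + 1) → Fin (n + 1) → ℝ) →
    Label (Fin (n + 1))

/-- The Lemke-Howson algorithm, with initial labels chosen by `rule`, has a polynomially bounded
expected number of pivots under perturbations with noise `μ σ`: there is a polynomial `p` such that
for all sizes `N = n + 1`, all `σ > 0` and all games `(A, B)` with entries in `[0,1]`, the expected
number of pivots on `(A + R, B + S)` is at most `p (N, 1/σ)`, the entries of `R` and `S`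
being independent with law `μ σ`. -/
def PolySmoothed (rule : LabelRule) (μ : ℝ → Measure ℝ) : Prop :=
  ∃ p : MvPolynomial (Fin 2) ℝ, ∀ (n : ℕ) (σ : ℝ), 0 < σ →
    ∀ A B : Fin (n + 1) → Fin (n + 1) → ℝ,
      (∀ i j, A i j ∈ Set.Icc (0 : ℝ) 1) → (∀ i j, B i j ∈ Set.Icc (0 : ℝ) 1) →
      ∫⁻ R, ∫⁻ S, ((pivots (A + R) (B + S) (rule n (A + R) (B + S)) : ℕ∞) : ENNReal)
          ∂(noise (n + 1) (μ σ)) ∂(noise (n + 1) (μ σ))
        ≤ ENNReal.ofReal (MvPolynomial.eval ![((n + 1 : ℕ) : ℝ), 1 / σ] p)

/-- The uniform law on `[-σ, σ]`. -/
noncomputable def uniformNoise (σ : ℝ) : Measure ℝ :=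
  (ENNReal.ofReal (2 * σ))⁻¹ • volume.restrict (Set.Icc (-σ) σ)

/-- The centred Gaussian law with variance `σ ^ 2`. -/
noncomputable def gaussianNoise (σ : ℝ) : Measure ℝ :=
  gaussianReal 0 (σ ^ 2).toNNReal

end Definitions

end Pool.Agent.H521R2.LH
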