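import Pool.Agent.H521R2.LHDefs

/-!
# Proof that the Lemke-Howson algorithm does not have polynomial smoothed complexity

The nominal game has `D` blocks of two rows and two columns. The row player wants to match the
block and the column player wants to avoid it, so both mix the blocks evenly; inside a block they
play a small coordination game. The mass of the blocks not containing the missing label is the
homotopy parameter; every block responds to it along an S-shaped curve, and the
folds of the curves are nested. Hence the path has to run through a reflected ternary Gray code.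
-/

namespace Pool.Agent.H521R2.LH

open MeasureTheory ProbabilityTheory

/-! ### Sanity checks for the definitions -/

section Sanity

/-- An equilibrium pair, normalised, is a Nash equilibrium: `x / ∑ x` is a best response to
`y / ∑ y` and conversely. -/
theorem IsEquilibriumPair.isNash {ι : Type} [Fintype ι] {A B : ι → ι → ℝ} {x y : ι → ℝ}
    (h : IsEquilibriumPair A B x y) :
    0 < ∑ i, x i ∧ 0 < ∑ j, y j ∧
      (∀ i, x i ≠ 0 → ∀ i', ∑ j, A i' j * (y j / ∑ j, y j) ≤ ∑ j, A i j * (y j / ∑ j, y j)) ∧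
      (∀ j, y j ≠ 0 → ∀ j', ∑ i, (x i / ∑ i, x i) * B i j' ≤ ∑ i, (x i / ∑ i, x i) * B i j) := by
  obtain ⟨hx, hy, hx0, hy0, hcl⟩ := h
  have pos : ∀ v : ι → ℝ, (∀ i, 0 ≤ v i) → v ≠ 0 → 0 < ∑ i, v i := by
    intro v hv hv0
    rcases (Finset.sum_nonneg fun i (_ : i ∈ Finset.univ) => hv i).lt_or_eq with h0 | h0
    · exact h0
    · exfalso
      apply hv0
      funext i
      exact (Finset.sum_eq_zero_iff_of_nonneg (fun i _ => hv i)).1 h0.symm i (Finset.mem_univ i)
  have hX := pos x hx.1 hx0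
  have hY := pos y hy.1 hy0
  refine ⟨hX, hY, ?_, ?_⟩
  · intro i hi i'
    have h1 : ∑ j, (A i j + shift A) * y j = 1 := (hcl (Sum.inl i)).resolve_left hi
    have h2 : ∑ j, (A i' j + shift A) * y j ≤ 1 := hy.2 i'
    simp only [add_mul, Finset.sum_add_distrib] at h1 h2
    simp only [← mul_div_assoc]
    rw [← Finset.sum_div, ← Finset.sum_div, div_le_div_iff_of_pos_right hY]
    linarith
  · intro j hj j'
    have h1 : ∑ i, x i * (B i j + shift B) = 1 := (hcl (Sum.inr j)).resolve_right hj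
    have h2 : ∑ i, x i * (B i j' + shift B) ≤ 1 := hx.2 j'
    simp only [mul_add, Finset.sum_add_distrib] at h1 h2
    simp only [div_mul_eq_mul_div]
    rw [← Finset.sum_div, ← Finset.sum_div, div_le_div_iff_of_pos_right hX]
    linarith

/-- On the trivial `1 × 1` game the algorithm needs at most two pivots. -/
theorem pivots_trivial : pivots (ι := Fin 1) 0 0 (Sum.inl 0) ≤ 2 := by
  have hsh : shift (0 : Fin 1 → Fin 1 → ℝ) = 1 := by simp [shift]
  have hP : ∀ v : Fin 1 → ℝ, v ∈ polyP (0 : Fin 1 → Fin 1 → ℝ) ↔ 0 ≤ v 0 ∧ v 0 ≤ 1 := by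
    intro v; simp [polyP, hsh]
  have hQ : ∀ v : Fin 1 → ℝ, v ∈ polyQ (0 : Fin 1 → Fin 1 → ℝ) ↔ 0 ≤ v 0 ∧ v 0 ≤ 1 := by
    intro v; simp [polyQ, hsh]
  have hext : ∀ S : Set (Fin 1 → ℝ), (∀ v, v ∈ S ↔ 0 ≤ v 0 ∧ v 0 ≤ 1) →
      (1 : Fin 1 → ℝ) ∈ S.extremePoints ℝ := by
    intro S hS
    rw [mem_extremePoints]
    refine ⟨(hS 1).2 (by simp), ?_⟩
    rintro v hv w hw ⟨a, b, ha, hb, hab, h⟩
    have h1 := (hS v).1 hv
    have h2 := (hS w).1 hw
    have h3 : a * v 0 + b * w 0 = 1 := by simpa using congrFun h 0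
    constructor
    · funext i; fin_cases i
      simp only [Fin.zero_eta, Pi.one_apply]
      nlinarith
    · funext i; fin_cases i
      simp only [Fin.zero_eta, Pi.one_apply]
      nlinarith
  have r0 : Reach (ι := Fin 1) 0 0 (Sum.inl 0) 0 0 0 true (Sum.inl 0) := Reach.init
  have r1 : Reach (ι := Fin 1) 0 0 (Sum.inl 0) 1 1 0 false (Sum.inr 0) := by
    refine Reach.moveX r0 ⟨hext _ hP, by simp, ?_⟩ ?_ ?_
    · rintro m ⟨hm, hm'⟩
      exfalso
      cases m with
      | inl i => fin_cases i; exact hm' rfl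
      | inr j => simp [labP] at hm
    · change ∑ i : Fin 1, (1 : Fin 1 → ℝ) i * _ = 1
      simp [hsh]
    · simp [labP]
  have r2 : Reach (ι := Fin 1) 0 0 (Sum.inl 0) 2 1 1 true (Sum.inl 0) := by
    refine Reach.moveY r1 ⟨hext _ hQ, by simp, ?_⟩ ?_ ?_
    · rintro m ⟨hm, hm'⟩
      exfalso
      cases m with
      | inl i => simp [labQ] at hm
      | inr j => fin_cases j; exact hm' rfl
    · change ∑ j : Fin 1, _ * (1 : Fin 1 → ℝ) j = 1
      simp [hsh]
    · simp [labQ]
  have heq : IsEquilibriumPair (ι := Fin 1) 0 0 1 1 := by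
    refine ⟨(hP 1).2 (by simp), (hQ 1).2 (by simp), by simp, by simp, ?_⟩
    intro m
    cases m with
    | inl i =>
      right
      change ∑ j : Fin 1, _ * (1 : Fin 1 → ℝ) j = 1
      simp [hsh]
    | inr j =>
      left
      change ∑ i : Fin 1, (1 : Fin 1 → ℝ) i * _ = 1
      simp [hsh]
  unfold pivots
  exact iInf₂_le_of_le 2 ⟨1, 1, true, Sum.inl 0, r2, heq⟩ (by norm_num)

end Sanity

/-! ### The reflected ternary Gray code -/

section Gray

/-- Number of states of the blocks `< k` other than `i0`. -/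
def wt (i0 : ℕ) : ℕ → ℤ
  | 0 => 1
  | k + 1 => if k = i0 then wt i0 k else 3 * wt i0 k

/-- Rank in the reflected ternary Gray code of the digits `d 0, …, d (k-1)`, skipping `d i0`;
the last digit is the most significant one. -/
def rk (i0 : ℕ) (d : ℕ → ℕ) : ℕ → ℤ
  | 0 => 0
  | k + 1 => if k = i0 then rk i0 d k else
      if d k = 0 then rk i0 d k else
        if d k = 1 then 2 * wt i0 k - 1 - rk i0 d k else 2 * wt i0 k + rk i0 d k

theorem rk_congr (i0 : ℕ) (d d' : ℕ → ℕ) (K : ℕ) (h : ∀ k < K, k ≠ i0 → d k = d' k) :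
    rk i0 d K = rk i0 d' K := by
  induction K with
  | zero => rfl
  | succ k ih =>
    have ih' := ih (fun k' hk' hne => h k' (by omega) hne)
    by_cases hk : k = i0
    · subst hk; simpa [rk] using ih'
    · have := h k (by omega) hk
      simp only [rk, hk, if_false, this, ih']

theorem rk_two (i0 : ℕ) (d : ℕ → ℕ) (K : ℕ) (h : ∀ k < K, k ≠ i0 → d k = 2) :
    rk i0 d K = wt i0 K - 1 := by
  induction K with
  | zero => simp [rk, wt]
  | succ k ih =>
    have ih' := ih (fun k' hk' hne => h k' (by omega) hne)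
    by_cases hk : k = i0
    · subst hk; simpa [rk, wt] using ih'
    · have := h k (by omega) hk
      simp only [rk, wt, hk, if_false, this, ih']
      norm_num
      ring

theorem rk_zero (i0 : ℕ) (d : ℕ → ℕ) (K : ℕ) (h : ∀ k < K, k ≠ i0 → d k = 0) :
    rk i0 d K = 0 := by
  induction K with
  | zero => simp [rk]
  | succ k ih =>
    have ih' := ih (fun k' hk' hne => h k' (by omega) hne)
    by_cases hk : k = i0
    · subst hk; simpa [rk] using ih'
    · have := h k (by omega) hk
      simp only [rk, hk, if_false, this, ih']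
      norm_num

theorem rk_step (i0 : ℕ) (d d' : ℕ → ℕ) (K j : ℕ) (hj : j < K) (hj0 : j ≠ i0)
    (h : (d j = 0 ∧ d' j = 1 ∧ ∀ k < j, k ≠ i0 → d k = 2 ∧ d' k = 2) ∨
      (d j = 2 ∧ d' j = 1 ∧ ∀ k < j, k ≠ i0 → d k = 0 ∧ d' k = 0))
    (hout : ∀ k < K, j < k → k ≠ i0 → d k = d' k) :
    |rk i0 d K - rk i0 d' K| ≤ 1 := by
  have base : |rk i0 d (j + 1) - rk i0 d' (j + 1)| ≤ 1 := by
    rcases h with ⟨h1, h2, h3⟩ | ⟨h1, h2, h3⟩
    · have e1 := rk_two i0 d j (fun k hk hne => (h3 k hk hne).1)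
      have e2 := rk_two i0 d' j (fun k hk hne => (h3 k hk hne).2)
      simp only [rk, hj0, if_false, h1, h2, e1, e2]
      norm_num
      rw [show wt i0 j - 1 - (2 * wt i0 j - wt i0 j) = -1 by ring]
      norm_num
    · have e1 := rk_zero i0 d j (fun k hk hne => (h3 k hk hne).1)
      have e2 := rk_zero i0 d' j (fun k hk hne => (h3 k hk hne).2)
      simp only [rk, hj0, if_false, h1, h2, e1, e2]
      norm_num
  have key : ∀ n, j + 1 ≤ n → n ≤ K → |rk i0 d n - rk i0 d' n| ≤ 1 := by
    intro n hn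
    induction n, hn using Nat.le_induction with
    | base => intro _; exact base
    | succ n hn ih =>
      intro hnK
      have ih' := ih (by omega)
      by_cases hk : n = i0
      · subst hk; simpa [rk] using ih'
      · have heq := hout n (by omega) (by omega) hk
        simp only [rk, hk, if_false, heq]
        split_ifs
        · exact ih'
        · rw [show 2 * wt i0 n - 1 - rk i0 d n - (2 * wt i0 n - 1 - rk i0 d' n) =
            -(rk i0 d n - rk i0 d' n) by ring, abs_neg]
          exact ih'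
        · rw [show 2 * wt i0 n + rk i0 d n - (2 * wt i0 n + rk i0 d' n) =
            (rk i0 d n - rk i0 d' n) by ring]
          exact ih'
  exact key K (by omega) le_rfl

theorem wt_le (i0 k : ℕ) (hk : k ≤ i0) : wt i0 k = 3 ^ k := by
  induction k with
  | zero => simp [wt]
  | succ k ih =>
    have h1 : k ≠ i0 := by omega
    simp only [wt, h1, if_false, ih (by omega)]
    ring

theorem wt_gt (i0 k : ℕ) (hk : i0 ≤ k) : wt i0 (k + 1) = 3 ^ k := by
  induction k, hk using Nat.le_induction with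
  | base => simp [wt, wt_le i0 i0 le_rfl]
  | succ k hk ih =>
    have h1 : k + 1 ≠ i0 := by omega
    rw [wt]
    simp only [h1, if_false, ih]
    ring

end Gray


section Half

/-- The digit of a block with masses `p`, `q` on its two rows. -/
noncomputable def dg (p q : ℕ → ℝ) (k : ℕ) : ℕ := if q k = 0 then 0 else if p k = 0 then 2 else 1

theorem numA {c uj uk X Y : ℝ} (hc : 0 < c) (hc2 : c ≤ 1 / 2) (huj : 1 ≤ uj)
    (huk : uj + c ≤ uk) (huk2 : uk ≤ 3 / 2) (h1 : c - 2 * (c ^ 2 / 100) ≤ uj * X)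
    (h2 : X ≤ Y + c ^ 2 / 25) (h3 : uk * Y ≤ c + 2 * (c ^ 2 / 100)) : False := by
  have hX : 0 < X := by
    by_contra hneg
    push Not at hneg
    nlinarith
  have hX2 : (2 / 3) * (c - 2 * (c ^ 2 / 100)) ≤ X := by nlinarith
  have hY : uk * X ≤ uk * Y + (3 / 2) * (c ^ 2 / 25) := by nlinarith [sq_nonneg c]
  have h4 : uj * X + c * X ≤ uk * X := by nlinarith
  have h5 : c * ((2 / 3) * (c - 2 * (c ^ 2 / 100))) ≤ c * X := by
    exact mul_le_mul_of_nonneg_left hX2 hc.le
  nlinarith [mul_pos hc hc]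

theorem numB {c wj wk X Y : ℝ} (hc : 0 < c) (hc2 : c ≤ 1 / 2) (hwj : wj ≤ 3)
    (hwk : wk + c ≤ wj) (hwk2 : 5 / 2 ≤ wk) (h1 : c - 2 * (c ^ 2 / 100) ≤ wk * Y)
    (h2 : Y ≤ X + c ^ 2 / 25) (h3 : wj * X ≤ c + 2 * (c ^ 2 / 100)) : False := by
  have hX : wk * Y ≤ wk * X + 3 * (c ^ 2 / 25) := by nlinarith [sq_nonneg c]
  have hX0 : 0 < X := by
    by_contra hneg
    push Not at hneg
    nlinarith
  have h4 : wk * X + c * X ≤ wj * X := by nlinarith
  have hX2 : (1 / 3) * (c - 2 * (c ^ 2 / 100) - 3 * (c ^ 2 / 25)) ≤ X := by nlinarith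
  have h5 : c * ((1 / 3) * (c - 2 * (c ^ 2 / 100) - 3 * (c ^ 2 / 25))) ≤ c * X := by
    exact mul_le_mul_of_nonneg_left hX2 hc.le
  nlinarith [mul_pos hc hc]

theorem numC {c u w X Y : ℝ} (hc : 0 < c) (hc2 : c ≤ 1 / 2) (hu : u ≤ 3 / 2) (hu1 : 1 ≤ u)
    (hw : 5 / 2 ≤ w) (h1 : c - 2 * (c ^ 2 / 100) ≤ u * X)
    (h2 : X ≤ Y + c ^ 2 / 25) (h3 : w * Y ≤ c + 2 * (c ^ 2 / 100)) : False := by
  have hX0 : 0 < X := by
    by_contra hneg
    push Not at hneg
    nlinarith
  have hX2 : (2 / 3) * (c - 2 * (c ^ 2 / 100)) ≤ X := by nlinarith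
  have hY0 : 0 < Y := by nlinarith
  have h5 : (5 / 2) * Y ≤ c + 2 * (c ^ 2 / 100) := by nlinarith
  nlinarith [mul_pos hc hc]

theorem half (D i0 : ℕ) (p q P Q : ℕ → ℝ) (c : ℝ) (hD : 1 ≤ D) (hc : c = 1 / (2 * D))
    (hp : ∀ k < D, 0 ≤ p k) (hq : ∀ k < D, 0 ≤ q k)
    (hPp : ∀ k < D, P k = 0 → p k = 0) (hQq : ∀ k < D, Q k = 0 → q k = 0)
    (H0 : ∀ k < D, k ≠ i0 → ∀ k' < D, p k + q k ≤ p k' + q k' + c ^ 2 / 25)
    (H1 : ∀ k < D, k ≠ i0 → P k ≠ 0 →
      (3 / 2 - k * c) * p k + (5 / 2 + k * c) * q k ≤ c + 2 * (c ^ 2 / 100))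
    (H2 : ∀ k < D, k ≠ i0 → Q k ≠ 0 →
      c - 2 * (c ^ 2 / 100) ≤ (3 / 2 - k * c) * p k + (5 / 2 + k * c) * q k) :
    |rk i0 (dg p q) D - rk i0 (dg P Q) D| ≤ 1 := by
  have hD' : (1 : ℝ) ≤ D := by exact_mod_cast hD
  have hc0 : 0 < c := by rw [hc]; positivity
  have hc2 : c ≤ 1 / 2 := by
    rw [hc]
    rw [div_le_div_iff₀ (by positivity) (by norm_num)]
    linarith
  have hDc : (D : ℝ) * c = 1 / 2 := by
    rw [hc]; field_simp
  have hkc : ∀ k < D, (k : ℝ) * c ≤ 1 / 2 := by
    intro k hk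
    have : (k : ℝ) ≤ D := by exact_mod_cast hk.le
    nlinarith
  have hk0 : ∀ k : ℕ, 0 ≤ (k : ℝ) * c := fun k => by positivity
  have hstep : ∀ k j : ℕ, k < j → (k : ℝ) * c + c ≤ j * c := by
    intro k j hkj
    have : (k : ℝ) + 1 ≤ j := by exact_mod_cast hkj
    nlinarith
  have cls : ∀ k < D, k ≠ i0 → dg p q k ≠ dg P Q k →
      P k ≠ 0 ∧ Q k ≠ 0 ∧ (q k = 0 ∨ (p k = 0 ∧ q k ≠ 0)) := by
    intro k hk hki hne
    by_cases hQ : Q k = 0
    · exfalso
      apply hne
      simp [dg, hQ, hQq k hk hQ]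
    · by_cases hP : P k = 0
      · exfalso
        have hpk := hPp k hk hP
        have h2 := H2 k hk hki hQ
        have hqk : q k ≠ 0 := by
          intro hqk
          rw [hpk, hqk] at h2
          nlinarith
        apply hne
        simp [dg, hQ, hP, hqk, hpk]
      · refine ⟨hP, hQ, ?_⟩
        by_cases hqk : q k = 0
        · exact Or.inl hqk
        · right
          refine ⟨?_, hqk⟩
          by_contra hpk
          apply hne
          simp [dg, hQ, hP, hqk, hpk]
  by_cases hC : ∃ j < D, j ≠ i0 ∧ dg p q j ≠ dg P Q j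
  · obtain ⟨j, hj, hji, hne⟩ := hC
    obtain ⟨hPj, hQj, hcase⟩ := cls j hj hji hne
    have h1j := H1 j hj hji hPj
    have h2j := H2 j hj hji hQj
    have hd' : dg P Q j = 1 := by simp [dg, hPj, hQj]
    rcases hcase with hqj | ⟨hpj, hqj⟩
    · rw [hqj] at h1j h2j
      simp only [mul_zero, add_zero] at h1j h2j
      apply rk_step i0 _ _ D j hj hji
      · left
        refine ⟨by simp [dg, hqj], hd', ?_⟩
        intro k hk hki
        have hkD : k < D := by omega
        have hX := H0 j hj hji k hkD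
        rw [hqj, add_zero] at hX
        have hPk : P k = 0 := by
          by_contra hPk
          have h1k := H1 k hkD hki hPk
          refine numA (c := c) (uj := 3 / 2 - j * c) (uk := 3 / 2 - k * c) (X := p j)
            (Y := p k + q k) hc0 hc2 (by linarith [hkc j hj]) (by linarith [hstep k j hk])
            (by linarith [hk0 k]) h2j hX ?_
          have := hq k hkD
          nlinarith [hk0 k]
        have hpk := hPp k hkD hPk
        have hpj0 : c ^ 2 / 25 < p j := by
          have := hkc j hj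
          have := hk0 j
          nlinarith
        have hqk : q k ≠ 0 := by
          intro hqk
          rw [hpk, hqk] at hX
          linarith
        have hQk : Q k ≠ 0 := fun h => hqk (hQq k hkD h)
        constructor
        · simp [dg, hqk, hpk]
        · simp [dg, hQk, hPk]
      · intro k hkD hjk hki
        by_contra hne'
        obtain ⟨hPk, hQk, hcase'⟩ := cls k hkD hki hne'
        have hX := H0 k hkD hki j hj
        have hX' := H0 j hj hji k hkD
        rcases hcase' with hqk | ⟨hpk, hqk⟩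
        · have h2k := H2 k hkD hki hQk
          rw [hqk] at h2k hX
          rw [hqj] at hX
          simp only [mul_zero, add_zero] at h2k hX
          exact numA (c := c) (uj := 3 / 2 - k * c) (uk := 3 / 2 - j * c) (X := p k)
            (Y := p j) hc0 hc2 (by linarith [hkc k hkD]) (by linarith [hstep j k hjk])
            (by linarith [hk0 j]) h2k hX h1j
        · have h1k := H1 k hkD hki hPk
          rw [hpk] at h1k hX'
          rw [hqj] at hX'
          simp only [mul_zero, zero_add, add_zero] at h1k hX'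
          exact numC (c := c) (u := 3 / 2 - j * c) (w := 5 / 2 + k * c) (X := p j)
            (Y := q k) hc0 hc2 (by linarith [hk0 j]) (by linarith [hkc j hj])
            (by linarith [hk0 k]) h2j hX' h1k
    · rw [hpj] at h1j h2j
      simp only [mul_zero, zero_add] at h1j h2j
      apply rk_step i0 _ _ D j hj hji
      · right
        refine ⟨by simp [dg, hqj, hpj], hd', ?_⟩
        intro k hk hki
        have hkD : k < D := by omega
        have hX := H0 k hkD hki j hj
        rw [hpj, zero_add] at hX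
        have hQk : Q k = 0 := by
          by_contra hQk
          have h2k := H2 k hkD hki hQk
          refine numB (c := c) (wj := 5 / 2 + j * c) (wk := 5 / 2 + k * c) (X := q j)
            (Y := p k + q k) hc0 hc2 (by linarith [hkc j hj]) (by linarith [hstep k j hk])
            (by linarith [hk0 k]) ?_ hX h1j
          have := hp k hkD
          nlinarith [hk0 k]
        have hqk := hQq k hkD hQk
        constructor
        · simp [dg, hqk]
        · simp [dg, hQk]
      · intro k hkD hjk hki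
        by_contra hne'
        obtain ⟨hPk, hQk, hcase'⟩ := cls k hkD hki hne'
        have hX := H0 k hkD hki j hj
        have hX' := H0 j hj hji k hkD
        rcases hcase' with hqk | ⟨hpk, hqk⟩
        · have h2k := H2 k hkD hki hQk
          rw [hqk] at h2k hX
          rw [hpj] at hX
          simp only [mul_zero, zero_add, add_zero] at h2k hX
          exact numC (c := c) (u := 3 / 2 - k * c) (w := 5 / 2 + j * c) (X := p k)
            (Y := q j) hc0 hc2 (by linarith [hk0 k]) (by linarith [hkc k hkD])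
            (by linarith [hk0 j]) h2k hX h1j
        · have h1k := H1 k hkD hki hPk
          rw [hpk] at h1k hX'
          rw [hpj] at hX'
          simp only [mul_zero, zero_add, add_zero] at h1k hX'
          exact numB (c := c) (wj := 5 / 2 + k * c) (wk := 5 / 2 + j * c) (X := q k)
            (Y := q j) hc0 hc2 (by linarith [hkc k hkD]) (by linarith [hstep j k hjk])
            (by linarith [hk0 j]) h2j hX' h1k
  · push Not at hC
    have : rk i0 (dg p q) D = rk i0 (dg P Q) D := rk_congr i0 _ _ D hC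
    rw [this]
    norm_num

end Half

section Core

variable {ι : Type} [Fintype ι] {D : ℕ}

/-- The small parameter `1 / (2D)`. -/
noncomputable def cc (D : ℕ) : ℝ := 1 / (2 * D)

/-- The large payoff. -/
noncomputable def MM (D : ℕ) : ℝ := 400 * (D : ℝ) ^ 2

/-- In-block payoff of the second column against the row of type `b`. -/
noncomputable def wgt (D : ℕ) (k : Fin D) (b : Bool) : ℝ :=
  if b then 3 / 2 - (k : ℕ) * cc D else 5 / 2 + (k : ℕ) * cc D

/-- The nominal payoff matrix of the row player: she wants to match the block, and then the type. -/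
noncomputable def A0 (e : ι ≃ Fin D × Bool) (i j : ι) : ℝ :=
  (if (e i).1 = (e j).1 then MM D + (if (e i).2 = (e j).2 then 1 else 0) else 0) / (MM D + 4)

/-- The nominal payoff matrix of the column player: she wants not to match the block. -/
noncomputable def B0 (e : ι ≃ Fin D × Bool) (i j : ι) : ℝ :=
  (if (e i).1 = (e j).1 then (if (e j).2 then cc D else wgt D (e i).1 (e i).2)
    else MM D + (if (e j).2 then cc D else 0)) / (MM D + 4)

theorem MM_pos (hD : 1 ≤ D) : 0 < MM D := by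
  have : (1 : ℝ) ≤ D := by exact_mod_cast hD
  unfold MM; positivity

theorem sum_ι (e : ι ≃ Fin D × Bool) (f : ι → ℝ) :
    ∑ i, f i = ∑ k : Fin D, (f (e.symm (k, true)) + f (e.symm (k, false))) := by
  rw [← Equiv.sum_comp e.symm, Fintype.sum_prod_type]
  simp

theorem sumB (hD : 1 ≤ D) (e : ι ≃ Fin D × Bool) (x : ι → ℝ) (k : Fin D) (b : Bool) :
    (MM D + 4) * ∑ i, x i * B0 e i (e.symm (k, b)) =
      MM D * ((∑ i, x i) - (x (e.symm (k, true)) + x (e.symm (k, false)))) +
        (if b then cc D * ∑ i, x i else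
          wgt D k true * x (e.symm (k, true)) + wgt D k false * x (e.symm (k, false))) := by
  have hM := MM_pos hD
  have hM' : MM D + 4 ≠ 0 := by positivity
  rw [Finset.mul_sum]
  have h1 : ∀ i, (MM D + 4) * (x i * B0 e i (e.symm (k, b))) =
      x i * (if (e i).1 = k then (if b then cc D else wgt D (e i).1 (e i).2)
        else MM D + (if b then cc D else 0)) := by
    intro i
    unfold B0
    simp only [Equiv.apply_symm_apply]
    field_simp
  simp only [h1]
  rw [sum_ι e, sum_ι e x]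
  simp only [Equiv.apply_symm_apply]
  have h2 : ∀ k' : Fin D,
      (x (e.symm (k', true)) * (if k' = k then (if b then cc D else wgt D k' true)
          else MM D + (if b then cc D else 0)) +
        x (e.symm (k', false)) * (if k' = k then (if b then cc D else wgt D k' false)
          else MM D + (if b then cc D else 0))) =
      (MM D + (if b then cc D else 0)) * (x (e.symm (k', true)) + x (e.symm (k', false))) +
        (if k' = k then (x (e.symm (k, true)) * ((if b then cc D else wgt D k true)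
            - (MM D + (if b then cc D else 0))) +
          x (e.symm (k, false)) * ((if b then cc D else wgt D k false)
            - (MM D + (if b then cc D else 0)))) else 0) := by
    intro k'
    by_cases hk : k' = k
    · subst hk; simp only [if_true]; ring
    · simp only [hk, if_false]; ring
  simp only [h2]
  rw [Finset.sum_add_distrib, Finset.sum_ite_eq' Finset.univ k, ← Finset.mul_sum]
  cases b
  · simp only [Finset.mem_univ, if_true, Bool.false_eq_true, if_false]; ring
  · simp only [Finset.mem_univ, if_true]; ring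

theorem sumA (hD : 1 ≤ D) (e : ι ≃ Fin D × Bool) (y : ι → ℝ) (k : Fin D) (b : Bool) :
    (MM D + 4) * ∑ j, A0 e (e.symm (k, b)) j * y j =
      MM D * (y (e.symm (k, true)) + y (e.symm (k, false))) + y (e.symm (k, b)) := by
  have hM := MM_pos hD
  have hM' : MM D + 4 ≠ 0 := by positivity
  rw [Finset.mul_sum]
  have h1 : ∀ j, (MM D + 4) * (A0 e (e.symm (k, b)) j * y j) =
      y j * (if (e j).1 = k then MM D + (if (e j).2 = b then 1 else 0) else 0) := by
    intro j
    unfold A0
    simp only [Equiv.apply_symm_apply]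
    have e1 : (k = (e j).1) ↔ ((e j).1 = k) := eq_comm
    have e2 : (b = (e j).2) ↔ ((e j).2 = b) := eq_comm
    simp only [e1, e2]
    field_simp
  simp only [h1]
  rw [sum_ι e]
  simp only [Equiv.apply_symm_apply]
  have h2 : ∀ k' : Fin D,
      (y (e.symm (k', true)) * (if k' = k then MM D + (if true = b then 1 else 0) else 0) +
        y (e.symm (k', false)) * (if k' = k then MM D + (if false = b then 1 else 0) else 0)) =
      (if k' = k then y (e.symm (k, true)) * (MM D + (if true = b then 1 else 0)) +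
        y (e.symm (k, false)) * (MM D + (if false = b then 1 else 0)) else 0) := by
    intro k'
    by_cases hk : k' = k
    · subst hk; simp only [if_true]
    · simp only [hk, if_false]; ring
  simp only [h2]
  rw [Finset.sum_ite_eq' Finset.univ k]
  cases b
  · simp; ring
  · simp; ring


/-- Tolerance (in the scale of the unnormalised game). -/
noncomputable def et (D : ℕ) : ℝ := cc D ^ 2 / 100

theorem cc_pos (hD : 1 ≤ D) : 0 < cc D := by
  have : (1 : ℝ) ≤ D := by exact_mod_cast hD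
  unfold cc; positivity

theorem MM_cc (hD : 1 ≤ D) : MM D * cc D ^ 2 = 100 := by
  have : (1 : ℝ) ≤ D := by exact_mod_cast hD
  unfold MM cc; field_simp; norm_num

theorem D_cc (hD : 1 ≤ D) : (D : ℝ) * cc D = 1 / 2 := by
  have : (1 : ℝ) ≤ D := by exact_mod_cast hD
  unfold cc; field_simp

theorem cc_le (hD : 1 ≤ D) : cc D ≤ 1 / 2 := by
  have h1 : (1 : ℝ) ≤ D := by exact_mod_cast hD
  have h2 := D_cc hD
  have h3 := cc_pos hD
  nlinarith

/-- Sums of a nonnegative vector against a perturbed matrix. -/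
theorem pert_sum {δ : ℝ} {u v x : ι → ℝ} (hx : ∀ i, 0 ≤ x i) (h : ∀ i, |u i - v i| ≤ δ) :
    |∑ i, x i * u i - ∑ i, x i * v i| ≤ δ * ∑ i, x i := by
  rw [← Finset.sum_sub_distrib, Finset.mul_sum]
  refine (Finset.abs_sum_le_sum_abs _ _).trans (Finset.sum_le_sum fun i _ => ?_)
  rw [← mul_sub, abs_mul, abs_of_nonneg (hx i), mul_comm]
  exact mul_le_mul_of_nonneg_right (h i) (hx i)

theorem colBR (hD : 1 ≤ D) (e : ι ≃ Fin D × Bool) {B : ι → ι → ℝ} {δ : ℝ}
    (hB : ∀ i j, |B i j - B0 e i j| ≤ δ) (hδ : (MM D + 4) * δ ≤ et D) {x : ι → ℝ}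
    (hx : x ∈ polyP B) {j j' : ι} (h : Sum.inr j ∈ labP B x) :
    (MM D + 4) * ∑ i, x i * B0 e i j' ≤ (MM D + 4) * ∑ i, x i * B0 e i j + 2 * et D * ∑ i, x i := by
  have hM := MM_pos hD
  have hj : ∑ i, x i * (B i j + shift B) = 1 := h
  have hj' : ∑ i, x i * (B i j' + shift B) ≤ 1 := hx.2 j'
  simp only [mul_add, Finset.sum_add_distrib] at hj hj'
  have h1 : ∑ i, x i * B i j' ≤ ∑ i, x i * B i j := by linarith
  have h2 := abs_le.1 (pert_sum (u := fun i => B i j) (v := fun i => B0 e i j) hx.1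
    (fun i => hB i j))
  have h3 := abs_le.1 (pert_sum (u := fun i => B i j') (v := fun i => B0 e i j') hx.1
    (fun i => hB i j'))
  have hS : 0 ≤ ∑ i, x i := Finset.sum_nonneg fun i _ => hx.1 i
  have h4 : (MM D + 4) * δ * ∑ i, x i ≤ et D * ∑ i, x i := mul_le_mul_of_nonneg_right hδ hS
  have h5 : ∑ i, x i * B0 e i j' ≤ ∑ i, x i * B0 e i j + 2 * (δ * ∑ i, x i) := by linarith
  have h6 := mul_le_mul_of_nonneg_left h5 (show 0 ≤ MM D + 4 by positivity)
  linarith

theorem rowBR (hD : 1 ≤ D) (e : ι ≃ Fin D × Bool) {A : ι → ι → ℝ} {δ : ℝ}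
    (hA : ∀ i j, |A i j - A0 e i j| ≤ δ) (hδ : (MM D + 4) * δ ≤ et D) {y : ι → ℝ}
    (hy : y ∈ polyQ A) {i i' : ι} (h : Sum.inl i ∈ labQ A y) :
    (MM D + 4) * ∑ j, A0 e i' j * y j ≤ (MM D + 4) * ∑ j, A0 e i j * y j + 2 * et D * ∑ j, y j := by
  have hM := MM_pos hD
  have hj : ∑ j, (A i j + shift A) * y j = 1 := h
  have hj' : ∑ j, (A i' j + shift A) * y j ≤ 1 := hy.2 i'
  simp only [add_mul, Finset.sum_add_distrib] at hj hj'
  have h1 : ∑ j, A i' j * y j ≤ ∑ j, A i j * y j := by linarith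
  have h2 := abs_le.1 (pert_sum (u := fun j => A i j) (v := fun j => A0 e i j) hy.1
    (fun j => hA i j))
  have h3 := abs_le.1 (pert_sum (u := fun j => A i' j) (v := fun j => A0 e i' j) hy.1
    (fun j => hA i' j))
  simp only [mul_comm (y _)] at h2 h3
  have hS : 0 ≤ ∑ i, y i := Finset.sum_nonneg fun i _ => hy.1 i
  have h4 : (MM D + 4) * δ * ∑ i, y i ≤ et D * ∑ i, y i := mul_le_mul_of_nonneg_right hδ hS
  have h5 : ∑ j, A0 e i' j * y j ≤ ∑ j, A0 e i j * y j + 2 * (δ * ∑ j, y j) := by linarith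
  have h6 := mul_le_mul_of_nonneg_left h5 (show 0 ≤ MM D + 4 by positivity)
  linarith

theorem wgt_le (hD : 1 ≤ D) (k : Fin D) (b : Bool) : wgt D k b ≤ 3 := by
  have h1 : ((k : ℕ) : ℝ) ≤ D := by exact_mod_cast k.2.le
  have h2 := cc_pos hD
  have h3 := D_cc hD
  have h4 : (0 : ℝ) ≤ (k : ℕ) := by positivity
  unfold wgt
  split_ifs <;> nlinarith

/-- If a column of block `k` is a best response then block `k` is no heavier than others. -/
theorem labE0 (hD : 1 ≤ D) (e : ι ≃ Fin D × Bool) {B : ι → ι → ℝ} {δ : ℝ}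
    (hB : ∀ i j, |B i j - B0 e i j| ≤ δ) (hδ : (MM D + 4) * δ ≤ et D) {x : ι → ℝ}
    (hx : x ∈ polyP B) {k : Fin D} {b : Bool} (h : Sum.inr (e.symm (k, b)) ∈ labP B x)
    (k' : Fin D) :
    x (e.symm (k, true)) + x (e.symm (k, false)) ≤
      x (e.symm (k', true)) + x (e.symm (k', false)) + cc D ^ 2 / 25 * ∑ i, x i := by
  have h1 := colBR hD e hB hδ hx (j' := e.symm (k', true)) h
  rw [sumB hD, sumB hD] at h1
  simp only [if_true] at h1
  have hM := MM_pos hD
  have hMc := MM_cc hD
  have hc := cc_pos hD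
  have hc2 := cc_le hD
  have hS : 0 ≤ ∑ i, x i := Finset.sum_nonneg fun i _ => hx.1 i
  have hp := hx.1 (e.symm (k, true))
  have hq := hx.1 (e.symm (k, false))
  have hXS : x (e.symm (k, true)) + x (e.symm (k, false)) ≤ ∑ i, x i := by
    rw [sum_ι e x]
    exact Finset.single_le_sum
      (f := fun k => x (e.symm (k, true)) + x (e.symm (k, false)))
      (fun k _ => add_nonneg (hx.1 _) (hx.1 _)) (Finset.mem_univ k)
  have hw1 := wgt_le hD k true
  have hw2 := wgt_le hD k false
  have h2 : MM D * (x (e.symm (k, true)) + x (e.symm (k, false))) ≤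
      MM D * (x (e.symm (k', true)) + x (e.symm (k', false))) + (3 + 2 * et D) * ∑ i, x i := by
    have hcS : 0 ≤ cc D * ∑ i, x i := by positivity
    cases b
    · simp only [Bool.false_eq_true, if_false] at h1
      have h3 : wgt D k true * x (e.symm (k, true)) ≤ 3 * x (e.symm (k, true)) :=
        mul_le_mul_of_nonneg_right hw1 hp
      have h4 : wgt D k false * x (e.symm (k, false)) ≤ 3 * x (e.symm (k, false)) :=
        mul_le_mul_of_nonneg_right hw2 hq
      nlinarith
    · simp only [if_true] at h1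
      nlinarith
  have h3 : (3 + 2 * et D) ≤ 4 := by
    unfold et; nlinarith
  have h4 : (3 + 2 * et D) * ∑ i, x i ≤ 4 * ∑ i, x i := mul_le_mul_of_nonneg_right h3 hS
  have h5 : MM D * (cc D ^ 2 / 25 * ∑ i, x i) = 4 * ∑ i, x i := by
    rw [show MM D * (cc D ^ 2 / 25 * ∑ i, x i) = (MM D * cc D ^ 2) / 25 * ∑ i, x i by ring, hMc]
    ring
  have h6 : MM D * (x (e.symm (k, true)) + x (e.symm (k, false))) ≤
      MM D * (x (e.symm (k', true)) + x (e.symm (k', false)) + cc D ^ 2 / 25 * ∑ i, x i) := by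
    rw [mul_add (MM D) _ (cc D ^ 2 / 25 * ∑ i, x i), h5]
    linarith
  exact le_of_mul_le_mul_left h6 hM

theorem labE1 (hD : 1 ≤ D) (e : ι ≃ Fin D × Bool) {B : ι → ι → ℝ} {δ : ℝ}
    (hB : ∀ i j, |B i j - B0 e i j| ≤ δ) (hδ : (MM D + 4) * δ ≤ et D) {x : ι → ℝ}
    (hx : x ∈ polyP B) {k : Fin D} (h : Sum.inr (e.symm (k, true)) ∈ labP B x) :
    wgt D k true * x (e.symm (k, true)) + wgt D k false * x (e.symm (k, false)) ≤
      (cc D + 2 * et D) * ∑ i, x i := by
  have h1 := colBR hD e hB hδ hx (j' := e.symm (k, false)) h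
  rw [sumB hD, sumB hD] at h1
  simp only [if_true, Bool.false_eq_true, if_false] at h1
  linarith

theorem labE2 (hD : 1 ≤ D) (e : ι ≃ Fin D × Bool) {B : ι → ι → ℝ} {δ : ℝ}
    (hB : ∀ i j, |B i j - B0 e i j| ≤ δ) (hδ : (MM D + 4) * δ ≤ et D) {x : ι → ℝ}
    (hx : x ∈ polyP B) {k : Fin D} (h : Sum.inr (e.symm (k, false)) ∈ labP B x) :
    (cc D - 2 * et D) * ∑ i, x i ≤
      wgt D k true * x (e.symm (k, true)) + wgt D k false * x (e.symm (k, false)) := by
  have h1 := colBR hD e hB hδ hx (j' := e.symm (k, true)) h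
  rw [sumB hD, sumB hD] at h1
  simp only [if_true, Bool.false_eq_true, if_false] at h1
  linarith

theorem labR (hD : 1 ≤ D) (e : ι ≃ Fin D × Bool) {A : ι → ι → ℝ} {δ : ℝ}
    (hA : ∀ i j, |A i j - A0 e i j| ≤ δ) (hδ : (MM D + 4) * δ ≤ et D) {y : ι → ℝ}
    (hy : y ∈ polyQ A) {i : ι} (h : Sum.inl i ∈ labQ A y) : 0 < y i := by
  obtain ⟨⟨k, b⟩, rfl⟩ := e.symm.surjective i
  have hM := MM_pos hD
  have hMc := MM_cc hD
  have hc := cc_pos hD
  have hc2 := cc_le hD
  have hDc := D_cc hD
  have hD1 : (1 : ℝ) ≤ D := by exact_mod_cast hD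
  have hS : 0 ≤ ∑ i, y i := Finset.sum_nonneg fun i _ => hy.1 i
  have hSpos : 0 < ∑ i, y i := by
    rcases hS.lt_or_eq with h0 | h0
    · exact h0
    · exfalso
      have h1 : ∀ i, y i = 0 := by
        intro i
        exact (Finset.sum_eq_zero_iff_of_nonneg (fun i _ => hy.1 i)).1 h0.symm i
          (Finset.mem_univ i)
      have h2 : ∑ j, (A (e.symm (k, b)) j + shift A) * y j = 1 := h
      simp [h1] at h2
  by_contra hneg
  have hyi : y (e.symm (k, b)) = 0 := le_antisymm (not_lt.1 hneg) (hy.1 _)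
  have h1 : ∀ k' : Fin D, MM D * (y (e.symm (k', true)) + y (e.symm (k', false))) ≤
      MM D * (y (e.symm (k, true)) + y (e.symm (k, false))) + 2 * et D * ∑ i, y i := by
    intro k'
    have h2 := rowBR hD e hA hδ hy (i' := e.symm (k', true)) h
    rw [sumA hD, sumA hD, hyi] at h2
    have := hy.1 (e.symm (k', true))
    linarith
  have h3 : y (e.symm (k, true)) + y (e.symm (k, false)) ≤ 2 * et D * ∑ i, y i := by
    have h2 := rowBR hD e hA hδ hy (i' := e.symm (k, !b)) h
    rw [sumA hD, sumA hD, hyi] at h2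
    cases b
    · simp only [Bool.not_false] at h2
      rw [hyi]; linarith
    · simp only [Bool.not_true] at h2
      rw [hyi]; linarith
  have h4 : MM D * ∑ i, y i ≤
      D * (MM D * (y (e.symm (k, true)) + y (e.symm (k, false))) + 2 * et D * ∑ i, y i) := by
    conv_lhs => rw [sum_ι e y, Finset.mul_sum]
    calc _ ≤ ∑ _k' : Fin D, (MM D * (y (e.symm (k, true)) + y (e.symm (k, false))) +
          2 * et D * ∑ i, y i) := Finset.sum_le_sum fun k' _ => h1 k'
      _ = _ := by simp; ring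
  have h5 : MM D * (y (e.symm (k, true)) + y (e.symm (k, false))) ≤
      MM D * (2 * et D * ∑ i, y i) := mul_le_mul_of_nonneg_left h3 hM.le
  have h6 : MM D * (2 * et D * ∑ i, y i) = 2 * ∑ i, y i := by
    unfold et
    rw [show MM D * (2 * (cc D ^ 2 / 100) * ∑ i, y i) =
      (MM D * cc D ^ 2) / 50 * ∑ i, y i by ring, hMc]
    ring
  have h7 : (D : ℝ) * (2 * et D) ≤ 1 := by
    unfold et
    nlinarith
  have h8 : MM D * ∑ i, y i ≤ (2 * D + 1) * ∑ i, y i := by
    have h9 : (D : ℝ) * (2 * et D * ∑ i, y i) ≤ 1 * ∑ i, y i := by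
      rw [← mul_assoc]
      exact mul_le_mul_of_nonneg_right h7 hS
    have h10 : (D : ℝ) * (MM D * (y (e.symm (k, true)) + y (e.symm (k, false)))) ≤
        D * (2 * ∑ i, y i) := by
      apply mul_le_mul_of_nonneg_left _ (by positivity)
      linarith
    nlinarith
  have h11 : MM D ≤ 2 * D + 1 := le_of_mul_le_mul_right h8 hSpos
  unfold MM at h11
  nlinarith


/-- Mass of `x` on the row of type `b` of block `k`. -/
noncomputable def ms (e : ι ≃ Fin D × Bool) (x : ι → ℝ) (b : Bool) (k : ℕ) : ℝ :=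
  if h : k < D then x (e.symm (⟨k, h⟩, b)) else 0

/-- The block of a label. -/
def blk (e : ι ≃ Fin D × Bool) (m : Label ι) : ℕ :=
  Sum.elim (fun i => ((e i).1 : ℕ)) (fun j => ((e j).1 : ℕ)) m

omit [Fintype ι] in
theorem blk_lt (e : ι ≃ Fin D × Bool) (m : Label ι) : blk e m < D := by
  cases m with
  | inl i => exact (e i).1.2
  | inr i => exact (e i).1.2

/-- The rank of `x`, where the block of the missing label is ignored. -/
noncomputable def rank (e : ι ≃ Fin D × Bool) (ℓ : Label ι) (x : ι → ℝ) : ℤ :=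
  rk (blk e ℓ) (dg (ms e x true) (ms e x false)) D

theorem half_step (hD : 1 ≤ D) (e : ι ≃ Fin D × Bool) {A B : ι → ι → ℝ} {δ : ℝ}
    (hA : ∀ i j, |A i j - A0 e i j| ≤ δ) (hB : ∀ i j, |B i j - B0 e i j| ≤ δ)
    (hδ : (MM D + 4) * δ ≤ et D) {ℓ : Label ι} {x z y : ι → ℝ} (hx : x ∈ polyP B)
    (hy : y ∈ polyQ A) (hsupp : ∀ i, z i = 0 → x i = 0)
    (hacx : ∀ m, m ≠ ℓ → m ∈ labP B x ∨ m ∈ labQ A y)
    (hacz : ∀ m, m ≠ ℓ → m ∈ labP B z ∨ m ∈ labQ A y) :
    |rank e ℓ x - rank e ℓ z| ≤ 1 := by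
  have key : ∀ (k : Fin D) (b : Bool), (k : ℕ) ≠ blk e ℓ → z (e.symm (k, b)) ≠ 0 →
      Sum.inr (e.symm (k, b)) ∈ labP B x := by
    intro k b hk hne
    have h1 : (Sum.inl (e.symm (k, b)) : Label ι) ≠ ℓ := by
      rintro rfl
      apply hk
      simp [blk]
    have h2 : (Sum.inr (e.symm (k, b)) : Label ι) ≠ ℓ := by
      rintro rfl
      apply hk
      simp [blk]
    rcases hacz _ h1 with h3 | h3
    · exact absurd h3 hne
    · have h4 := labR hD e hA hδ hy h3
      rcases hacx _ h2 with h5 | h5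
      · exact h5
      · have h6 : y (e.symm (k, b)) = 0 := h5
        linarith
  have hS : 0 ≤ ∑ i, x i := Finset.sum_nonneg fun i _ => hx.1 i
  rcases hS.lt_or_eq with hSpos | hS0
  · -- normalise
    have hc := cc_pos hD
    have hSne := hSpos.ne'
    have hdg : dg (ms e x true) (ms e x false) =
        dg (fun k => ms e x true k / ∑ i, x i) (fun k => ms e x false k / ∑ i, x i) := by
      funext k
      simp [dg, hSne]
    have hnn : ∀ (b : Bool) (k : ℕ), 0 ≤ ms e x b k := by
      intro b k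
      unfold ms
      split_ifs
      · exact hx.1 _
      · exact le_rfl
    have hzero : ∀ (b : Bool), ∀ k < D, ms e z b k = 0 → ms e x b k / ∑ i, x i = 0 := by
      intro b k hk h
      simp only [ms, hk, dif_pos] at h ⊢
      rw [hsupp _ h, zero_div]
    unfold rank
    rw [hdg]
    refine half D (blk e ℓ) _ _ (ms e z true) (ms e z false) (cc D) hD rfl ?_ ?_ ?_ ?_ ?_ ?_ ?_
    · intro k _; exact div_nonneg (hnn _ _) hS
    · intro k _; exact div_nonneg (hnn _ _) hS
    · exact hzero true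
    · exact hzero false
    · intro k hk hki k' hk'
      by_cases hzk : z (e.symm (⟨k, hk⟩, true)) = 0 ∧ z (e.symm (⟨k, hk⟩, false)) = 0
      · have h1 : ms e x true k = 0 := by simp only [ms, hk, dif_pos]; exact hsupp _ hzk.1
        have h2 : ms e x false k = 0 := by simp only [ms, hk, dif_pos]; exact hsupp _ hzk.2
        simp only [h1, h2]
        have h3 := div_nonneg (hnn true k') hS
        have h4 := div_nonneg (hnn false k') hS
        have : 0 ≤ cc D ^ 2 / 25 := by positivity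
        simp only [zero_div, add_zero]
        linarith
      · have hb : ∃ b, z (e.symm (⟨k, hk⟩, b)) ≠ 0 := by
          by_contra hcon
          push Not at hcon
          exact hzk ⟨hcon true, hcon false⟩
        obtain ⟨b, hb⟩ := hb
        have h1 := labE0 hD e hB hδ hx (key ⟨k, hk⟩ b hki hb) ⟨k', hk'⟩
        simp only [ms, hk, hk', dif_pos]
        rw [← add_div, ← add_div, div_le_iff₀ hSpos, add_mul, div_mul_cancel₀ _ hSne]
        exact h1
    · intro k hk hki hne
      have hne' : z (e.symm (⟨k, hk⟩, true)) ≠ 0 := by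
        simpa only [ms, hk, dif_pos] using hne
      have h1 := labE1 hD e hB hδ hx (key ⟨k, hk⟩ true hki hne')
      simp only [wgt, if_true, Bool.false_eq_true, if_false] at h1
      simp only [ms, hk, dif_pos]
      rw [← mul_div_assoc, ← mul_div_assoc, ← add_div, div_le_iff₀ hSpos]
      exact h1
    · intro k hk hki hne
      have hne' : z (e.symm (⟨k, hk⟩, false)) ≠ 0 := by
        simpa only [ms, hk, dif_pos] using hne
      have h1 := labE2 hD e hB hδ hx (key ⟨k, hk⟩ false hki hne')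
      simp only [wgt, if_true, Bool.false_eq_true, if_false] at h1
      simp only [ms, hk, dif_pos]
      rw [show (3 / 2 - (k : ℝ) * cc D) * (x (e.symm (⟨k, hk⟩, true)) / ∑ i, x i) +
          (5 / 2 + (k : ℝ) * cc D) * (x (e.symm (⟨k, hk⟩, false)) / ∑ i, x i) =
          ((3 / 2 - (k : ℝ) * cc D) * x (e.symm (⟨k, hk⟩, true)) +
          (5 / 2 + (k : ℝ) * cc D) * x (e.symm (⟨k, hk⟩, false))) / ∑ i, x i by ring,
        le_div_iff₀ hSpos]
      exact h1
  · have h1 : ∀ i, x i = 0 := by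
      intro i
      exact (Finset.sum_eq_zero_iff_of_nonneg (fun i _ => hx.1 i)).1 hS0.symm i
        (Finset.mem_univ i)
    have h2 : ∀ (k : Fin D) (b : Bool), (k : ℕ) ≠ blk e ℓ → z (e.symm (k, b)) = 0 := by
      intro k b hk
      by_contra hne
      have h3 := key k b hk hne
      have h4 : ∑ i, x i * (B i (e.symm (k, b)) + shift B) = 1 := h3
      simp [h1] at h4
    have h3 : rank e ℓ x = 0 := by
      apply rk_zero
      intro k hk _
      simp [dg, ms, h1]
    have h4 : rank e ℓ z = 0 := by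
      apply rk_zero
      intro k hk hki
      have : ms e z false k = 0 := by
        simp only [ms, hk, dif_pos]
        exact h2 ⟨k, hk⟩ false hki
      simp [dg, this]
    rw [h3, h4]
    norm_num

/-- A point of the polytope that is a midpoint of two points has their common labels. -/
theorem labP_mid {B : ι → ι → ℝ} {x x' : ι → ℝ} {m : Label ι} (h : m ∈ labP B x)
    (h' : m ∈ labP B x') : m ∈ labP B (fun i => (x i + x' i) / 2) := by
  cases m with
  | inl i =>
    have h1 : x i = 0 := h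
    have h2 : x' i = 0 := h'
    change (x i + x' i) / 2 = 0
    rw [h1, h2]; norm_num
  | inr j =>
    have h1 : ∑ i, x i * (B i j + shift B) = 1 := h
    have h2 : ∑ i, x' i * (B i j + shift B) = 1 := h'
    change ∑ i, (x i + x' i) / 2 * (B i j + shift B) = 1
    have h3 : ∀ i, (x i + x' i) / 2 * (B i j + shift B) =
        (x i * (B i j + shift B) + x' i * (B i j + shift B)) / 2 := fun i => by ring
    simp only [h3]
    rw [← Finset.sum_div, Finset.sum_add_distrib, h1, h2]
    norm_num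

theorem polyP_mid {B : ι → ι → ℝ} {x x' : ι → ℝ} (h : x ∈ polyP B) (h' : x' ∈ polyP B) :
    (fun i => (x i + x' i) / 2) ∈ polyP B := by
  refine ⟨fun i => ?_, fun j => ?_⟩
  · have := h.1 i
    have := h'.1 i
    simp only
    positivity
  · have h1 := h.2 j
    have h2 := h'.2 j
    have h3 : ∀ i, (x i + x' i) / 2 * (B i j + shift B) =
        (x i * (B i j + shift B) + x' i * (B i j + shift B)) / 2 := fun i => by ring
    simp only [h3]
    rw [← Finset.sum_div, Finset.sum_add_distrib]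
    linarith

theorem reach_inv (hD : 1 ≤ D) (e : ι ≃ Fin D × Bool) {A B : ι → ι → ℝ} {δ : ℝ}
    (hA : ∀ i j, |A i j - A0 e i j| ≤ δ) (hB : ∀ i j, |B i j - B0 e i j| ≤ δ)
    (hδ : (MM D + 4) * δ ≤ et D) {ℓ : Label ι} {t : ℕ} {x y : ι → ℝ} {s : Bool} {m : Label ι}
    (h : Reach A B ℓ t x y s m) :
    x ∈ polyP B ∧ y ∈ polyQ A ∧ (∀ m', m' ≠ ℓ → m' ∈ labP B x ∨ m' ∈ labQ A y) ∧
      (m = ℓ ∨ (if s then m ∈ labQ A y else m ∈ labP B x)) ∧
      rank e ℓ x ≤ (t : ℤ) + (if s then 0 else 1) := by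
  induction h with
  | init =>
    refine ⟨⟨fun i => le_rfl, fun j => by simp⟩, ⟨fun i => le_rfl, fun j => by simp⟩, ?_,
      Or.inl rfl, ?_⟩
    · intro m' _
      cases m' with
      | inl i => left; exact (rfl : (0 : ι → ℝ) i = 0)
      | inr j => right; exact (rfl : (0 : ι → ℝ) j = 0)
    · have : rank e ℓ (0 : ι → ℝ) = 0 := by
        apply rk_zero
        intro k hk _
        simp [dg, ms]
      rw [this]
      split_ifs <;> simp
  | @moveX t x y m x' m' hr hp hm1 hm2 ih =>
    obtain ⟨hx, hy, hac, hdup, hrk⟩ := ih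
    obtain ⟨hext, hne, hlab⟩ := hp
    have hx' : x' ∈ polyP B := hext.1
    have hpers : ∀ m'', m'' ≠ ℓ → m'' ∉ labQ A y → m'' ∈ labP B x ∧ m'' ∈ labP B x' := by
      intro m'' h1 h2
      have h3 : m'' ∈ labP B x := (hac m'' h1).resolve_right h2
      refine ⟨h3, hlab ⟨h3, ?_⟩⟩
      intro h4
      have h4' : m'' = m := h4
      subst h4'
      rcases hdup with h5 | h5
      · exact h1 h5
      · simp only [if_true] at h5
        exact h2 h5
    have hac' : ∀ m'', m'' ≠ ℓ → m'' ∈ labP B x' ∨ m'' ∈ labQ A y := by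
      intro m'' h1
      by_cases h2 : m'' ∈ labQ A y
      · exact Or.inr h2
      · exact Or.inl (hpers m'' h1 h2).2
    have hacz : ∀ m'', m'' ≠ ℓ →
        m'' ∈ labP B (fun i => (x i + x' i) / 2) ∨ m'' ∈ labQ A y := by
      intro m'' h1
      by_cases h2 : m'' ∈ labQ A y
      · exact Or.inr h2
      · exact Or.inl (labP_mid (hpers m'' h1 h2).1 (hpers m'' h1 h2).2)
    have h1 := half_step hD e hA hB hδ hx hy (by
      intro i hi
      have := hx.1 i
      have := hx'.1 i
      have hi' : (x i + x' i) / 2 = 0 := hi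
      linarith) hac hacz
    have h2 := half_step hD e hA hB hδ hx' hy (by
      intro i hi
      have := hx.1 i
      have := hx'.1 i
      have hi' : (x i + x' i) / 2 = 0 := hi
      linarith) hac' hacz
    refine ⟨hx', hy, hac', Or.inr ?_, ?_⟩
    · simp only [Bool.false_eq_true, if_false]; exact hm1
    · simp only [if_true, add_zero] at hrk
      simp only [Bool.false_eq_true, if_false]
      rw [abs_le] at h1 h2
      push_cast
      omega
  | @moveY t x y m y' m' hr hp hm1 hm2 ih =>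
    obtain ⟨hx, hy, hac, hdup, hrk⟩ := ih
    obtain ⟨hext, hne, hlab⟩ := hp
    have hy' : y' ∈ polyQ A := hext.1
    refine ⟨hx, hy', ?_, Or.inr ?_, ?_⟩
    · intro m'' h1
      by_cases h2 : m'' ∈ labP B x
      · exact Or.inl h2
      · right
        have h3 : m'' ∈ labQ A y := (hac m'' h1).resolve_left h2
        refine hlab ⟨h3, ?_⟩
        intro h4
        have h4' : m'' = m := h4
        subst h4'
        rcases hdup with h5 | h5
        · exact h1 h5
        · simp only [Bool.false_eq_true, if_false] at h5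
          exact h2 h5
    · simp only [if_true]; exact hm1
    · simp only [Bool.false_eq_true, if_false] at hrk
      simp only [if_true, add_zero]
      push_cast
      exact hrk

theorem final_rank (hD : 1 ≤ D) (e : ι ≃ Fin D × Bool) {A B : ι → ι → ℝ} {δ : ℝ}
    (hA : ∀ i j, |A i j - A0 e i j| ≤ δ) (hB : ∀ i j, |B i j - B0 e i j| ≤ δ)
    (hδ : (MM D + 4) * δ ≤ et D) {ℓ : Label ι} {x y : ι → ℝ} (h : IsEquilibriumPair A B x y) :
    rank e ℓ x = wt (blk e ℓ) D - 1 := by
  obtain ⟨hx, hy, hx0, hy0, hcl⟩ := h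
  have hc := cc_pos hD
  have hc2 := cc_le hD
  have hDc := D_cc hD
  have hD1 : (1 : ℝ) ≤ D := by exact_mod_cast hD
  have hS : 0 ≤ ∑ i, x i := Finset.sum_nonneg fun i _ => hx.1 i
  have hSpos : 0 < ∑ i, x i := by
    rcases hS.lt_or_eq with h0 | h0
    · exact h0
    · exfalso
      apply hx0
      funext i
      exact (Finset.sum_eq_zero_iff_of_nonneg (fun i _ => hx.1 i)).1 h0.symm i
        (Finset.mem_univ i)
  have key : ∀ (k : Fin D) (b : Bool), x (e.symm (k, b)) ≠ 0 →
      Sum.inr (e.symm (k, b)) ∈ labP B x := by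
    intro k b hne
    rcases hcl (Sum.inl (e.symm (k, b))) with h3 | h3
    · exact absurd h3 hne
    · have h4 := labR hD e hA hδ hy h3
      rcases hcl (Sum.inr (e.symm (k, b))) with h5 | h5
      · exact h5
      · have h6 : y (e.symm (k, b)) = 0 := h5
        linarith
  have hE0 : ∀ k k' : Fin D, x (e.symm (k, true)) + x (e.symm (k, false)) ≤
      x (e.symm (k', true)) + x (e.symm (k', false)) + cc D ^ 2 / 25 * ∑ i, x i := by
    intro k k'
    by_cases h1 : x (e.symm (k, true)) = 0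
    · by_cases h2 : x (e.symm (k, false)) = 0
      · rw [h1, h2]
        have h3 := hx.1 (e.symm (k', true))
        have h4 := hx.1 (e.symm (k', false))
        have h5 : 0 ≤ cc D ^ 2 / 25 * ∑ i, x i := by positivity
        linarith
      · exact labE0 hD e hB hδ hx (key k false h2) k'
    · exact labE0 hD e hB hδ hx (key k true h1) k'
  have hX : ∀ k : Fin D, ∑ i, x i ≤
      D * (x (e.symm (k, true)) + x (e.symm (k, false)) + cc D ^ 2 / 25 * ∑ i, x i) := by
    intro k
    conv_lhs => rw [sum_ι e x]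
    calc _ ≤ ∑ _k' : Fin D, (x (e.symm (k, true)) + x (e.symm (k, false)) +
          cc D ^ 2 / 25 * ∑ i, x i) := Finset.sum_le_sum fun k' _ => hE0 k' k
      _ = _ := by simp; ring
  apply rk_two
  intro k hk _
  have hXk := hX ⟨k, hk⟩
  have hk1 : ((k : ℕ) : ℝ) * cc D ≤ 1 / 2 := by
    have : ((k : ℕ) : ℝ) ≤ D := by exact_mod_cast hk.le
    nlinarith
  have hk0 : 0 ≤ ((k : ℕ) : ℝ) * cc D := by positivity
  -- `c * X ≥ (1 - small) * ...`
  have h1 : cc D * ∑ i, x i ≤ (1 / 2) * (x (e.symm (⟨k, hk⟩, true)) +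
      x (e.symm (⟨k, hk⟩, false)) + cc D ^ 2 / 25 * ∑ i, x i) := by
    have h2 := mul_le_mul_of_nonneg_left hXk hc.le
    rw [← mul_assoc (cc D) (D : ℝ) _, mul_comm (cc D) (D : ℝ), hDc] at h2
    exact h2
  have hp0 := hx.1 (e.symm (⟨k, hk⟩, true))
  have hq0 := hx.1 (e.symm (⟨k, hk⟩, false))
  have hcS : 0 < cc D * ∑ i, x i := by positivity
  have hcc : cc D ^ 2 * ∑ i, x i ≤ (1 / 2) * (cc D * ∑ i, x i) := by
    rw [show cc D ^ 2 * ∑ i, x i = cc D * (cc D * ∑ i, x i) by ring]
    exact mul_le_mul_of_nonneg_right hc2 hcS.le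
  have hp : x (e.symm (⟨k, hk⟩, true)) = 0 := by
    by_contra hne
    have h3 := labE1 hD e hB hδ hx (key ⟨k, hk⟩ true hne)
    simp only [wgt, if_true, Bool.false_eq_true, if_false, et] at h3
    have h4 : x (e.symm (⟨k, hk⟩, true)) ≤
        (3 / 2 - ((k : ℕ) : ℝ) * cc D) * x (e.symm (⟨k, hk⟩, true)) := by
      nlinarith
    have h5 : x (e.symm (⟨k, hk⟩, false)) ≤
        (5 / 2 + ((k : ℕ) : ℝ) * cc D) * x (e.symm (⟨k, hk⟩, false)) := by
      nlinarith
    nlinarith
  have hq : x (e.symm (⟨k, hk⟩, false)) ≠ 0 := by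
    intro hq
    rw [hp, hq] at h1
    nlinarith
  simp only [dg, ms, hk, dif_pos, hp, hq, if_true, if_false]

/-- The Lemke-Howson path is exponentially long, for every missing label and every game close to
the nominal one. -/
theorem reach_ge (hD : 1 ≤ D) (e : ι ≃ Fin D × Bool) {A B : ι → ι → ℝ} {δ : ℝ}
    (hA : ∀ i j, |A i j - A0 e i j| ≤ δ) (hB : ∀ i j, |B i j - B0 e i j| ≤ δ)
    (hδ : (MM D + 4) * δ ≤ et D) {ℓ : Label ι} {t : ℕ} {x y : ι → ℝ} {s : Bool} {m : Label ι}
    (h : Reach A B ℓ t x y s m) (heq : IsEquilibriumPair A B x y) : 3 ^ (D - 1) ≤ t + 2 := by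
  have h1 := (reach_inv hD e hA hB hδ h).2.2.2.2
  rw [final_rank hD e hA hB hδ heq] at h1
  have h2 : wt (blk e ℓ) D = 3 ^ (D - 1) := by
    have h3 := blk_lt e ℓ
    have h4 := wt_gt (blk e ℓ) (D - 1) (by omega)
    rwa [Nat.sub_add_cancel hD] at h4
  rw [h2] at h1
  have h3 : ((3 : ℤ) ^ (D - 1)) ≤ (t : ℤ) + 2 := by
    split_ifs at h1 <;> linarith
  exact_mod_cast h3

theorem pivots_ge (hD : 1 ≤ D) (e : ι ≃ Fin D × Bool) {A B : ι → ι → ℝ} {δ : ℝ}
    (hA : ∀ i j, |A i j - A0 e i j| ≤ δ) (hB : ∀ i j, |B i j - B0 e i j| ≤ δ)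
    (hδ : (MM D + 4) * δ ≤ et D) (ℓ : Label ι) :
    ((3 ^ (D - 1) - 2 : ℕ) : ℕ∞) ≤ pivots A B ℓ := by
  unfold pivots
  refine le_iInf fun t => le_iInf fun ht => ?_
  obtain ⟨x, y, s, m, hr, heq⟩ := ht
  have := reach_ge hD e hA hB hδ hr heq
  exact_mod_cast (by omega : 3 ^ (D - 1) - 2 ≤ t)

end Core

section Final

open Filter

/-- Half-width of the box of admissible perturbations. -/
noncomputable def dl (D : ℕ) : ℝ := et D / (MM D + 4)

theorem et_pos {D : ℕ} (hD : 1 ≤ D) : 0 < et D := by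
  have := cc_pos hD
  unfold et; positivity

theorem dl_pos {D : ℕ} (hD : 1 ≤ D) : 0 < dl D := by
  have := et_pos hD
  have := MM_pos hD
  unfold dl; positivity

theorem dl_inv {D : ℕ} (hD : 1 ≤ D) : 1 / dl D = 400 * (D : ℝ) ^ 2 * (400 * (D : ℝ) ^ 2 + 4) := by
  have h1 : (1 : ℝ) ≤ D := by exact_mod_cast hD
  unfold dl et cc MM
  field_simp
  ring

theorem A0_mem {ι : Type} {D : ℕ} (hD : 1 ≤ D) (e : ι ≃ Fin D × Bool) (i j : ι) :
    A0 e i j ∈ Set.Icc (0 : ℝ) 1 := by
  have hM := MM_pos hD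
  unfold A0
  constructor
  · split_ifs <;> positivity
  · rw [div_le_one (by positivity)]
    split_ifs <;> linarith

theorem B0_mem {ι : Type} {D : ℕ} (hD : 1 ≤ D) (e : ι ≃ Fin D × Bool) (i j : ι) :
    B0 e i j ∈ Set.Icc (0 : ℝ) 1 := by
  have hM := MM_pos hD
  have hc := cc_pos hD
  have hc2 := cc_le hD
  have hw : ∀ (k : Fin D) (b : Bool), 0 ≤ wgt D k b := by
    intro k b
    have h1 : ((k : ℕ) : ℝ) ≤ D := by exact_mod_cast k.2.le
    have h3 := D_cc hD
    have h4 : (0 : ℝ) ≤ (k : ℕ) := by positivity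
    unfold wgt
    split_ifs <;> nlinarith
  unfold B0
  constructor
  · have := hw (e i).1 (e i).2
    split_ifs <;> positivity
  · rw [div_le_one (by positivity)]
    have := wgt_le hD (e i).1 (e i).2
    split_ifs <;> linarith

/-- The box of matrices with entries in `[-δ, δ]`. -/
def box (n : ℕ) (δ : ℝ) : Set (Fin n → Fin n → ℝ) :=
  Set.univ.pi fun _ => Set.univ.pi fun _ => Set.Icc (-δ) δ

theorem box_meas (n : ℕ) (δ : ℝ) : MeasurableSet (box n δ) :=
  MeasurableSet.univ_pi fun _ => MeasurableSet.univ_pi fun _ => measurableSet_Icc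

theorem box_mem {n : ℕ} {δ : ℝ} {R : Fin n → Fin n → ℝ} (h : R ∈ box n δ) (i j : Fin n) :
    |R i j| ≤ δ := by
  have := h i (Set.mem_univ i) j (Set.mem_univ j)
  exact abs_le.2 this

theorem noise_box (n : ℕ) (μ : Measure ℝ) [IsProbabilityMeasure μ] (δ : ℝ) :
    noise n μ (box n δ) = (μ (Set.Icc (-δ) δ)) ^ (n * n) := by
  unfold noise box
  rw [Measure.pi_pi]
  simp only [Measure.pi_pi]
  simp [pow_mul]

theorem lint_ge {n : ℕ} (ν : Measure (Fin n → Fin n → ℝ)) (bx : Set (Fin n → Fin n → ℝ))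
    (hbx : MeasurableSet bx) (C : ENNReal)
    (f : (Fin n → Fin n → ℝ) → (Fin n → Fin n → ℝ) → ENNReal)
    (h : ∀ R ∈ bx, ∀ S ∈ bx, C ≤ f R S) :
    C * ν bx * ν bx ≤ ∫⁻ R, ∫⁻ S, f R S ∂ν ∂ν := by
  have h1 : ∀ R ∈ bx, C * ν bx ≤ ∫⁻ S, f R S ∂ν := by
    intro R hR
    rw [← lintegral_indicator_const hbx]
    refine lintegral_mono fun S => ?_
    by_cases hS : S ∈ bx
    · simp only [hS, Set.indicator_of_mem]; exact h R hR S hS
    · simp [hS]
  rw [← lintegral_indicator_const hbx]
  refine lintegral_mono fun R => ?_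
  by_cases hR : R ∈ bx
  · simp only [hR, Set.indicator_of_mem]; exact h1 R hR
  · simp [hR]

theorem poly_lt (P : Polynomial ℝ) :
    ∀ᶠ n : ℕ in atTop, P.eval (n : ℝ) / 3 ^ n < 1 / 16 := by
  have h : Tendsto (fun n : ℕ => P.eval (n : ℝ) / 3 ^ n) atTop (nhds 0) := by
    have h1 : ∀ n : ℕ, P.eval (n : ℝ) / 3 ^ n =
        ∑ i ∈ Finset.range (P.natDegree + 1), P.coeff i * ((n : ℝ) ^ i / 3 ^ n) := by
      intro n
      rw [Polynomial.eval_eq_sum_range, Finset.sum_div]
      exact Finset.sum_congr rfl fun i _ => by ring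
    simp only [h1]
    have h2 : (0 : ℝ) = ∑ i ∈ Finset.range (P.natDegree + 1), P.coeff i * 0 := by simp
    rw [h2]
    refine tendsto_finsetSum _ fun i _ => ?_
    exact (tendsto_pow_const_div_const_pow_of_one_lt i (by norm_num : (1 : ℝ) < 3)).const_mul _
  exact h.eventually (gt_mem_nhds (by norm_num))

theorem not_polySmoothed (rule : LabelRule) (μ : ℝ → Measure ℝ)
    (hμ : ∀ σ, 0 < σ → IsProbabilityMeasure (μ σ)) (Q : Polynomial ℝ)
    (hQ : ∀ D : ℕ, 1 ≤ D → ∃ σ, 0 < σ ∧ 1 / σ = Q.eval (D : ℝ) ∧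
      ENNReal.ofReal (3 / 4) ≤ (μ σ (Set.Icc (-(dl D)) (dl D))) ^ ((2 * D) * (2 * D))) :
    ¬ PolySmoothed rule μ := by
  rintro ⟨p, hp⟩
  set P : Polynomial ℝ := MvPolynomial.aeval ![Polynomial.C 2 * Polynomial.X, Q] p with hP
  have hPe : ∀ x : ℝ, P.eval x = MvPolynomial.eval ![2 * x, Q.eval x] p := by
    intro x
    have h1 : P.eval x = Polynomial.evalRingHom x
        (MvPolynomial.eval₂ Polynomial.C ![Polynomial.C 2 * Polynomial.X, Q] p) := by
      rw [hP, MvPolynomial.aeval_def]; rfl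
    rw [h1, MvPolynomial.hom_eval₂]
    have h2 : (Polynomial.evalRingHom x).comp Polynomial.C = RingHom.id ℝ := by
      ext r; simp
    rw [h2]
    unfold MvPolynomial.eval MvPolynomial.eval₂Hom
    simp only [RingHom.coe_mk, MonoidHom.coe_mk, OneHom.coe_mk]
    congr 1
    funext i
    fin_cases i <;> simp
  obtain ⟨N, hN⟩ := eventually_atTop.1 (poly_lt P)
  obtain ⟨d, hd⟩ : ∃ d, N ≤ d + 1 ∧ 3 ≤ d + 1 := ⟨N + 3, by omega, by omega⟩
  have hD : 1 ≤ d + 1 := by omega
  obtain ⟨σ, hσ, hσQ, hbox⟩ := hQ (d + 1) hD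
  have hcard : Fintype.card (Fin (2 * d + 1 + 1)) = Fintype.card (Fin (d + 1) × Bool) := by
    simp; ring
  let e : Fin (2 * d + 1 + 1) ≃ Fin (d + 1) × Bool := Fintype.equivOfCardEq hcard
  have hex := hp (2 * d + 1) σ hσ (A0 e) (B0 e) (fun i j => A0_mem hD e i j)
    (fun i j => B0_mem hD e i j)
  have := hμ σ hσ
  have hM := MM_pos hD
  have hδ : (MM (d + 1) + 4) * dl (d + 1) ≤ et (d + 1) := by
    unfold dl
    rw [mul_div_cancel₀ _ (by positivity)]
  have hlow := lint_ge (noise (2 * d + 1 + 1) (μ σ)) (box (2 * d + 1 + 1) (dl (d + 1)))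
    (box_meas _ _) ((3 ^ (d + 1 - 1) - 2 : ℕ) : ENNReal)
    (fun R S => ((pivots (A0 e + R) (B0 e + S) (rule (2 * d + 1) (A0 e + R) (B0 e + S)) : ℕ∞) :
      ENNReal))
    (by
      intro R hR S hS
      have h1 := pivots_ge hD e (A := A0 e + R) (B := B0 e + S) (δ := dl (d + 1))
        (fun i j => by simpa using box_mem hR i j) (fun i j => by simpa using box_mem hS i j)
        hδ (rule (2 * d + 1) (A0 e + R) (B0 e + S))
      have h2 := ENat.toENNReal_mono h1
      simpa using h2)
  have h1 := hlow.trans hex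
  rw [noise_box] at h1
  have h2 : (2 * d + 1 + 1) * (2 * d + 1 + 1) = (2 * (d + 1)) * (2 * (d + 1)) := by ring
  rw [h2] at h1
  have h3 : ((3 ^ (d + 1 - 1) - 2 : ℕ) : ENNReal) * ENNReal.ofReal (3 / 4) *
      ENNReal.ofReal (3 / 4) ≤
      ENNReal.ofReal (MvPolynomial.eval ![((2 * d + 1 + 1 : ℕ) : ℝ), 1 / σ] p) := by
    refine le_trans ?_ h1
    gcongr
  have h4 : MvPolynomial.eval ![((2 * d + 1 + 1 : ℕ) : ℝ), 1 / σ] p = P.eval ((d + 1 : ℕ) : ℝ) := by
    rw [hPe, hσQ]
    congr 2
    push_cast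
    ring_nf
  rw [h4] at h3
  rw [← ENNReal.ofReal_natCast, ← ENNReal.ofReal_mul (by positivity),
    ← ENNReal.ofReal_mul (by positivity), ENNReal.ofReal_le_ofReal_iff'] at h3
  have h5 : 3 ≤ d + 1 := hd.2
  have h6 : (9 : ℝ) ≤ 3 ^ d := by
    calc (9 : ℝ) = 3 ^ 2 := by norm_num
      _ ≤ 3 ^ d := pow_le_pow_right₀ (by norm_num) (by omega)
  have h7 : ((3 ^ (d + 1 - 1) - 2 : ℕ) : ℝ) = 3 ^ d - 2 := by
    rw [Nat.add_sub_cancel]
    rw [Nat.cast_sub]
    · push_cast; ring
    · have h8 : 3 ^ 2 ≤ 3 ^ d := Nat.pow_le_pow_right (by norm_num) (by omega)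
      omega
  rw [h7] at h3
  have h9 := hN (d + 1) hd.1
  rw [div_lt_iff₀ (by positivity)] at h9
  have h10 : (3 : ℝ) ^ (d + 1) = 3 * 3 ^ d := by ring
  rw [h10] at h9
  rcases h3 with h3 | h3
  · nlinarith
  · nlinarith

theorem uniform_prob (σ : ℝ) (hσ : 0 < σ) : IsProbabilityMeasure (uniformNoise σ) := by
  constructor
  unfold uniformNoise
  rw [Measure.smul_apply, Measure.restrict_apply_univ, Real.volume_Icc, smul_eq_mul,
    show σ - -σ = 2 * σ by ring]
  apply ENNReal.inv_mul_cancel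
  · simpa using hσ
  · exact ENNReal.ofReal_ne_top

theorem uniform_box (σ : ℝ) (hσ : 0 < σ) : uniformNoise σ (Set.Icc (-σ) σ) = 1 := by
  unfold uniformNoise
  rw [Measure.smul_apply, Measure.restrict_apply measurableSet_Icc, Set.inter_self,
    Real.volume_Icc, smul_eq_mul, show σ - -σ = 2 * σ by ring]
  apply ENNReal.inv_mul_cancel
  · simpa using hσ
  · exact ENNReal.ofReal_ne_top

theorem gauss_box (σ δ : ℝ) (hσ : 0 < σ) (hδ : 0 < δ) :
    ENNReal.ofReal (1 - σ ^ 2 / δ ^ 2) ≤ gaussianNoise σ (Set.Icc (-δ) δ) := by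
  unfold gaussianNoise
  have h1 := meas_ge_le_variance_div_sq (μ := gaussianReal 0 (σ ^ 2).toNNReal)
    (X := id) (memLp_id_gaussianReal 2) hδ
  rw [variance_id_gaussianReal] at h1
  simp only [id_eq, integral_id_gaussianReal, sub_zero, Real.coe_toNNReal _ (sq_nonneg σ)] at h1
  have h2 : (Set.Icc (-δ) δ)ᶜ ⊆ {ω : ℝ | δ ≤ |ω|} := by
    intro x hx
    simp only [Set.mem_compl_iff, Set.mem_Icc, not_and_or, not_le] at hx
    simp only [Set.mem_ofPred_eq]
    rcases hx with h | h
    · rw [abs_of_neg (by linarith)]; linarith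
    · exact h.le.trans (le_abs_self x)
  have h3 := (measure_mono h2).trans h1
  rw [prob_compl_eq_one_sub measurableSet_Icc] at h3
  have h4 : (1 : ENNReal) ≤ gaussianReal 0 (σ ^ 2).toNNReal (Set.Icc (-δ) δ) +
      ENNReal.ofReal (σ ^ 2 / δ ^ 2) := by
    rw [tsub_le_iff_left] at h3
    exact h3
  rw [ENNReal.ofReal_sub _ (by positivity), ENNReal.ofReal_one]
  exact tsub_le_iff_right.2 h4

theorem gauss_pow {D : ℕ} (hD : 1 ≤ D) :
    ENNReal.ofReal (3 / 4) ≤
      (gaussianNoise (dl D / (4 * D)) (Set.Icc (-(dl D)) (dl D))) ^ ((2 * D) * (2 * D)) := by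
  have h0 : (1 : ℝ) ≤ D := by exact_mod_cast hD
  have hdl := dl_pos hD
  have h1 := gauss_box (dl D / (4 * D)) (dl D) (by positivity) hdl
  have h2 : (dl D / (4 * D)) ^ 2 / dl D ^ 2 = 1 / (16 * (D : ℝ) ^ 2) := by
    field_simp; norm_num
  rw [h2] at h1
  have h3 : (0 : ℝ) ≤ 1 - 1 / (16 * (D : ℝ) ^ 2) := by
    rw [sub_nonneg, div_le_one (by positivity)]
    nlinarith
  refine le_trans ?_ (pow_le_pow_left' h1 _)
  rw [← ENNReal.ofReal_pow h3]
  apply ENNReal.ofReal_le_ofReal
  have h4 := one_add_mul_le_pow (a := -(1 / (16 * (D : ℝ) ^ 2))) (by linarith) ((2 * D) * (2 * D))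
  have h5 : 1 + (((2 * D) * (2 * D) : ℕ) : ℝ) * -(1 / (16 * (D : ℝ) ^ 2)) = 3 / 4 := by
    push_cast
    field_simp
    norm_num
  rw [h5] at h4
  rwa [← sub_eq_add_neg] at h4

/-- **The Lemke-Howson algorithm does not have polynomial smoothed complexity**, neither under
uniform nor under Gaussian perturbations, whatever rule chooses the initial label. -/
theorem main (rule : LabelRule) :
    ¬ PolySmoothed rule uniformNoise ∧ ¬ PolySmoothed rule gaussianNoise := by
  constructor
  · refine not_polySmoothed rule uniformNoise uniform_prob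
      (Polynomial.C 400 * Polynomial.X ^ 2 * (Polynomial.C 400 * Polynomial.X ^ 2 +
        Polynomial.C 4)) ?_
    intro D hD
    refine ⟨dl D, dl_pos hD, ?_, ?_⟩
    · rw [dl_inv hD]
      simp
    · rw [uniform_box _ (dl_pos hD), one_pow]
      rw [← ENNReal.ofReal_one]
      exact ENNReal.ofReal_le_ofReal (by norm_num)
  · refine not_polySmoothed rule gaussianNoise
      (fun σ _ => by unfold gaussianNoise; infer_instance)
      (Polynomial.C 4 * Polynomial.X * (Polynomial.C 400 * Polynomial.X ^ 2 *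
        (Polynomial.C 400 * Polynomial.X ^ 2 + Polynomial.C 4))) ?_
    intro D hD
    have h0 : (1 : ℝ) ≤ D := by exact_mod_cast hD
    have hdl := dl_pos hD
    refine ⟨dl D / (4 * D), by positivity, ?_, gauss_pow hD⟩
    have h1 := dl_inv hD
    rw [one_div_div, div_eq_mul_one_div, h1]
    simp

end Final

end Pool.Agent.H521R2.LH
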